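import Mathlib

set_option autoImplicit false

open Filter Topology

namespace Pool.Agent.Results.MP_d594f7_lc.Parity

/-- Infinite subsets of `ℕ`, as characteristic functions, with the subspace topology of `2^ω`. -/
abbrev Inf := {x : ℕ → Bool // {n | x n = true}.Infinite}

/-- The Ellentuck set `[s, A]`. -/
def ell (s : Finset ℕ) (A : Set ℕ) : Set Inf :=
  {x | (∀ a ∈ s, x.1 a = true) ∧ (∀ a, x.1 a = true → a ∈ s ∨ a ∈ A) ∧
    ∀ a, x.1 a = true → (∃ b ∈ s, a ≤ b) → a ∈ s}

/-- Ramsey null sets. -/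
def RamseyNull (N : Set Inf) : Prop :=
  ∀ (s : Finset ℕ) (A : Set ℕ), A.Infinite → (∀ a ∈ s, ∀ b ∈ A, a < b) →
    ∃ B : Set ℕ, B ⊆ A ∧ B.Infinite ∧ ∀ x ∈ ell s B, x ∉ N

/-- The average of the first `n` terms of a sequence. -/
noncomputable def avg (g : ℕ → ℝ) (n : ℕ) : ℝ := (1 / (n : ℝ)) * ∑ j ∈ Finset.range n, g j

/-- number of elements of `x` below `j` -/
def cnt (j : ℕ) (x : Inf) : ℕ := ∑ i ∈ Finset.range j, if x.1 i = true then 1 else 0

/-- parity of the number of elements of `x` below `j` -/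
noncomputable def par (j : ℕ) (x : Inf) : ℝ := if Odd (cnt j x) then 1 else 0

theorem cnt_cont (j : ℕ) : Continuous (cnt j) := by
  unfold cnt
  refine continuous_finsetSum _ fun i _ => ?_
  have h1 : Continuous fun x : Inf => x.1 i := (continuous_apply i).comp continuous_subtype_val
  exact (continuous_of_discreteTopology (f := fun b : Bool => if b = true then (1 : ℕ) else 0)).comp h1

theorem par_cont (j : ℕ) : Continuous (par j) :=
  (continuous_of_discreteTopology (f := fun c : ℕ => if Odd c then (1 : ℝ) else 0)).comp (cnt_cont j)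

theorem par_mem (j : ℕ) (x : Inf) : par j x ∈ Set.Icc (0 : ℝ) 1 := by
  unfold par; split_ifs <;> simp

theorem cnt_eq (b : ℕ → ℕ) (hb : StrictMono b) (x : Inf) (hx : ∀ a, x.1 a = true ↔ a ∈ Set.range b)
    (i M : ℕ) (h1 : b i < M) (h2 : M ≤ b (i + 1)) : cnt M x = i + 1 := by
  classical
  unfold cnt
  rw [← Finset.card_filter]
  have : (Finset.range M).filter (fun a => x.1 a = true) = (Finset.range (i + 1)).image b := by
    ext a
    simp only [Finset.mem_filter, Finset.mem_range, Finset.mem_image, hx]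
    constructor
    · rintro ⟨ha, t, rfl⟩
      exact ⟨t, hb.lt_iff_lt.1 (lt_of_lt_of_le ha h2), rfl⟩
    · rintro ⟨t, ht, rfl⟩
      exact ⟨lt_of_le_of_lt (hb.monotone (by omega)) h1, t, rfl⟩
  rw [this, Finset.card_image_of_injective _ hb.injective, Finset.card_range]

theorem avg_close (g : ℕ → ℝ) (c : ℝ) (n t : ℕ) (hn : 4 * t ≤ n) (ht : 0 < t)
    (hg : ∀ j, |g j - c| ≤ 1) (he : ∀ j, t ≤ j → j < n → g j = c) : |avg g n - c| ≤ 1 / 4 := by
  have hnpos : (0 : ℝ) < n := by exact_mod_cast (by omega : 0 < n)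
  have e1 : avg g n - c = (1 / (n : ℝ)) * ∑ j ∈ Finset.range n, (g j - c) := by
    unfold avg
    rw [Finset.sum_sub_distrib, Finset.sum_const, Finset.card_range, nsmul_eq_mul]
    field_simp
  have e2 : ∑ j ∈ Finset.range n, (g j - c) = ∑ j ∈ Finset.range t, (g j - c) := by
    symm
    refine Finset.sum_subset (Finset.range_subset_range.2 (by omega)) fun j hj hj' => ?_
    rw [he j (by simpa using hj') (by simpa using hj), sub_self]
  have e3 : |∑ j ∈ Finset.range t, (g j - c)| ≤ t := by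
    refine (Finset.abs_sum_le_sum_abs _ _).trans ?_
    refine (Finset.sum_le_sum fun j _ => hg j).trans ?_
    simp
  rw [e1, e2, abs_mul, abs_of_pos (by positivity : (0 : ℝ) < 1 / n)]
  have h4 : (4 : ℝ) * t ≤ n := by exact_mod_cast hn
  calc 1 / (n : ℝ) * |∑ j ∈ Finset.range t, (g j - c)| ≤ 1 / (n : ℝ) * t := by gcongr
    _ ≤ 1 / 4 := by rw [div_mul_eq_mul_div, div_le_div_iff₀ hnpos (by norm_num)]; linarith

theorem result : ∃ f : ℕ → Inf → ℝ,
    (∀ j, Continuous (f j)) ∧ (∀ j, @Measurable Inf ℝ (borel Inf) _ (f j)) ∧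
    (∀ j x, f j x ∈ Set.Icc (0 : ℝ) 1) ∧
    ∀ m : ℕ → ℕ, StrictMono m → ∀ n : ℕ → ℕ, StrictMono n → ∀ N : Set Inf, RamseyNull N →
      ∃ x, x ∉ N ∧ ¬ ∃ l : ℝ, Tendsto (fun k => avg (fun j => f (m j) x) (n k)) atTop (𝓝 l) := by
  classical
  refine ⟨par, par_cont, fun j => ?_, par_mem, fun m hm n hn N hN => ?_⟩
  · letI : MeasurableSpace Inf := borel Inf
    haveI : BorelSpace Inf := ⟨rfl⟩
    exact (par_cont j).measurable
  obtain ⟨B, -, hB, hBN⟩ := hN ∅ Set.univ Set.infinite_univ (by simp)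
  have hex : ∀ t : ℕ, ∃ a ∈ B, t < a := fun t => hB.exists_gt t
  choose nx hnxB hnx using hex
  let b : ℕ → ℕ := fun i => Nat.rec (nx 0) (fun _ a => nx (m (n (4 * (a + 1))))) i
  have hbs : ∀ i, b (i + 1) = nx (m (n (4 * (b i + 1)))) := fun i => rfl
  have hbB : ∀ i, b i ∈ B := fun i => by
    cases i with
    | zero => exact hnxB 0
    | succ i => rw [hbs]; exact hnxB _
  have hgt : ∀ i, m (n (4 * (b i + 1))) < b (i + 1) := fun i => by rw [hbs]; exact hnx _
  have hb : StrictMono b := strictMono_nat_of_lt_succ fun i => by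
    have h1 := hgt i
    have h2 := hm.id_le (n (4 * (b i + 1)))
    have h3 := hn.id_le (4 * (b i + 1))
    simp only [id] at h2 h3
    omega
  let x : Inf := ⟨fun a => decide (a ∈ Set.range b), by
    refine (Set.infinite_range_of_injective hb.injective).mono fun a ha => ?_
    exact decide_eq_true ha⟩
  have hx : ∀ a, x.1 a = true ↔ a ∈ Set.range b := fun a => by simp [x]
  refine ⟨x, hBN x ⟨by simp, fun a ha => ?_, by simp⟩, ?_⟩
  · obtain ⟨i, rfl⟩ := (hx a).1 ha
    exact Or.inr (hbB i)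
  rintro ⟨l, hl⟩
  have key : ∀ i, |avg (fun j => par (m j) x) (n (4 * (b i + 1))) -
      (if Odd (i + 1) then 1 else 0)| ≤ 1 / 4 := by
    intro i
    refine avg_close _ _ _ (b i + 1) (hn.id_le _) (by omega) (fun j => ?_) fun j h1 h2 => ?_
    · have := par_mem (m j) x
      rw [abs_le]
      split_ifs <;> constructor <;> linarith [this.1, this.2]
    · have h3 := hm.id_le j
      simp only [id] at h3
      have h4 := hm h2
      have h5 := hgt i
      unfold par
      rw [cnt_eq b hb x hx i (m j) (by omega) (by omega)]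
  have ht : ∀ c : ℕ, Tendsto (fun i => 4 * (b (2 * i + c) + 1)) atTop atTop := fun c => by
    refine tendsto_atTop_mono (fun i => ?_) tendsto_id
    have := hb.id_le (2 * i + c)
    simp only [id] at this ⊢
    omega
  have h0 : 3 / 4 ≤ l := by
    refine ge_of_tendsto' (hl.comp (ht 0)) fun i => ?_
    have := key (2 * i + 0)
    rw [if_pos ⟨i, by ring⟩, abs_le] at this
    simp only [Function.comp]
    linarith [this.1]
  have h1 : l ≤ 1 / 4 := by
    refine le_of_tendsto' (hl.comp (ht 1)) fun i => ?_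
    have := key (2 * i + 1)
    rw [if_neg (by rw [Nat.not_odd_iff_even]; exact ⟨i + 1, by ring⟩), abs_le] at this
    simp only [Function.comp]
    linarith [this.2]
  linarith

end Pool.Agent.Results.MP_d594f7_lc.Parity
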